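import Mathlib
import Pool.Agent.W203.WS.Stm

set_option autoImplicit false
open MeasureTheory Finset

namespace Pool.Agent.W582.WS
open Pool.Agent.W203.WS

theorem norm_e (x : ℝ) : ‖e x‖ = 1 := by
  unfold e
  rw [show (2 * (Real.pi : ℂ) * Complex.I * (x : ℂ)) = ((2 * Real.pi * x : ℝ) : ℂ) * Complex.I by
    push_cast; ring]
  exact Complex.norm_exp_ofReal_mul_I _

theorem hasDerivAt_e {φ : ℝ → ℝ} {d x : ℝ} (h : HasDerivAt φ d x) :
    HasDerivAt (fun y => e (φ y)) (2 * (Real.pi : ℂ) * Complex.I * (d : ℂ) * e (φ x)) x := by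
  have h1 : HasDerivAt (fun y => ((φ y : ℝ) : ℂ)) (d : ℂ) x := h.ofReal_comp
  have h2 := (h1.const_mul (2 * (Real.pi : ℂ) * Complex.I)).cexp
  unfold e
  convert h2 using 1
  ring

theorem t_FDT : S_FDT := by
  intro φ φ' φ'' a b μ hab hμ h1 h2 h3 h4 h5
  have hu : Set.uIcc a b = Set.Icc a b := Set.uIcc_of_le hab
  have hpos : ∀ x ∈ Set.Icc a b, 0 < φ' x := fun x hx => lt_of_lt_of_le hμ (h4 x hx)
  have hpi : (2 * (Real.pi : ℂ) * Complex.I) ≠ 0 := by
    simp [Real.pi_ne_zero]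
  have cφ' : ContinuousOn φ' (Set.Icc a b) := fun x hx => (h2 x hx).continuousAt.continuousWithinAt
  have ce : ContinuousOn (fun x => e (φ x)) (Set.Icc a b) :=
    fun x hx => (hasDerivAt_e (h1 x hx)).continuousAt.continuousWithinAt
  have ce' : ContinuousOn (fun x => e (φ x)) (Set.uIcc a b) := by rw [hu]; exact ce
  -- the correction term
  have cr : ContinuousOn (fun x => φ'' x / (φ' x) ^ 2) (Set.Icc a b) :=
    h3.div (cφ'.pow 2) (fun x hx => pow_ne_zero 2 (hpos x hx).ne')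
  have cR : ContinuousOn
      (fun x => e (φ x) * ((φ'' x / (φ' x) ^ 2 : ℝ) : ℂ) / (2 * (Real.pi : ℂ) * Complex.I))
      (Set.Icc a b) :=
    (ce.mul (Complex.continuous_ofReal.comp_continuousOn cr)).div_const _
  have hF : ∀ x ∈ Set.uIcc a b,
      HasDerivAt (fun y => e (φ y) / ((2 * (Real.pi : ℂ) * Complex.I) * (φ' y : ℂ)))
        (e (φ x) -
          e (φ x) * ((φ'' x / (φ' x) ^ 2 : ℝ) : ℂ) / (2 * (Real.pi : ℂ) * Complex.I)) x := by
    intro x hx
    rw [hu] at hx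
    have hp := hpos x hx
    have hp' : ((φ' x : ℝ) : ℂ) ≠ 0 := by exact_mod_cast hp.ne'
    have g1 := hasDerivAt_e (h1 x hx)
    have g2 : HasDerivAt (fun y => ((φ' y : ℝ) : ℂ)) (φ'' x : ℂ) x := (h2 x hx).ofReal_comp
    have g3 := g2.const_mul (2 * (Real.pi : ℂ) * Complex.I)
    have g4 := g1.div g3 (mul_ne_zero hpi hp')
    refine HasDerivAt.congr_deriv (f := fun y => e (φ y) /
      ((2 * (Real.pi : ℂ) * Complex.I) * (φ' y : ℂ))) g4 ?_
    have hI : Complex.I ≠ 0 := Complex.I_ne_zero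
    have hpc : (Real.pi : ℂ) ≠ 0 := by exact_mod_cast Real.pi_ne_zero
    push_cast
    field_simp
  have hint1 : IntervalIntegrable (fun x => e (φ x)) volume a b := ce'.intervalIntegrable
  have hint2 : IntervalIntegrable
      (fun x => e (φ x) * ((φ'' x / (φ' x) ^ 2 : ℝ) : ℂ) / (2 * (Real.pi : ℂ) * Complex.I))
      volume a b := by
    apply ContinuousOn.intervalIntegrable; rw [hu]; exact cR
  have key := intervalIntegral.integral_eq_sub_of_hasDerivAt hF (hint1.sub hint2)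
  rw [intervalIntegral.integral_sub hint1 hint2] at key
  have key2 : (∫ x in a..b, e (φ x)) =
      e (φ b) / ((2 * (Real.pi : ℂ) * Complex.I) * (φ' b : ℂ)) -
        e (φ a) / ((2 * (Real.pi : ℂ) * Complex.I) * (φ' a : ℂ)) +
      ∫ x in a..b,
        e (φ x) * ((φ'' x / (φ' x) ^ 2 : ℝ) : ℂ) / (2 * (Real.pi : ℂ) * Complex.I) := by
    linear_combination key
  have n2 : ‖(2 * (Real.pi : ℂ) * Complex.I)‖ = 2 * Real.pi := by
    simp [abs_of_pos Real.pi_pos]
  have hb : b ∈ Set.Icc a b := ⟨hab, le_refl b⟩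
  have ha : a ∈ Set.Icc a b := ⟨le_refl a, hab⟩
  have nF : ∀ x ∈ Set.Icc a b,
      ‖e (φ x) / ((2 * (Real.pi : ℂ) * Complex.I) * (φ' x : ℂ))‖ ≤ 1 / (2 * Real.pi * μ) := by
    intro x hx
    rw [norm_div, norm_e, norm_mul, n2, Complex.norm_real, Real.norm_of_nonneg (hpos x hx).le]
    apply one_div_le_one_div_of_le
    · have := Real.pi_pos; positivity
    · exact mul_le_mul_of_nonneg_left (h4 x hx) (by have := Real.pi_pos; positivity)
  -- the integral of the correction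
  have hR : ∀ x ∈ Set.uIcc a b, HasDerivAt (fun y => -(φ' y)⁻¹) (φ'' x / (φ' x) ^ 2) x := by
    intro x hx
    rw [hu] at hx
    have g := ((h2 x hx).inv (hpos x hx).ne').neg
    refine HasDerivAt.congr_deriv (f := fun y => -(φ' y)⁻¹) g ?_
    ring
  have hintR : IntervalIntegrable (fun x => φ'' x / (φ' x) ^ 2) volume a b := by
    apply ContinuousOn.intervalIntegrable; rw [hu]; exact cr
  have keyR := intervalIntegral.integral_eq_sub_of_hasDerivAt hR hintR
  have bR : (∫ x in a..b, φ'' x / (φ' x) ^ 2) ≤ 1 / μ := by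
    rw [keyR]
    have e1 : (φ' a)⁻¹ ≤ 1 / μ := by
      rw [← one_div]; exact one_div_le_one_div_of_le hμ (h4 a ha)
    have e2 : 0 < (φ' b)⁻¹ := inv_pos.mpr (hpos b hb)
    linarith
  have nR : ‖∫ x in a..b,
        e (φ x) * ((φ'' x / (φ' x) ^ 2 : ℝ) : ℂ) / (2 * (Real.pi : ℂ) * Complex.I)‖ ≤
      1 / (2 * Real.pi * μ) := by
    calc _ ≤ ∫ x in a..b, ‖e (φ x) * ((φ'' x / (φ' x) ^ 2 : ℝ) : ℂ) /
            (2 * (Real.pi : ℂ) * Complex.I)‖ :=
          intervalIntegral.norm_integral_le_integral_norm hab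
      _ = ∫ x in a..b, (φ'' x / (φ' x) ^ 2) / (2 * Real.pi) := by
          apply intervalIntegral.integral_congr
          intro x hx
          rw [hu] at hx
          have : 0 ≤ φ'' x / (φ' x) ^ 2 := div_nonneg (h5 x hx) (by positivity)
          simp only
          rw [norm_div, norm_mul, norm_e, n2, Complex.norm_real, Real.norm_of_nonneg this, one_mul]
      _ = (∫ x in a..b, φ'' x / (φ' x) ^ 2) / (2 * Real.pi) :=
          intervalIntegral.integral_div _ _
      _ ≤ (1 / μ) / (2 * Real.pi) := by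
          apply div_le_div_of_nonneg_right bR
          have := Real.pi_pos; positivity
      _ = 1 / (2 * Real.pi * μ) := by
          rw [div_div, mul_comm]
  rw [key2]
  have t1 := nF b hb
  have t2 := nF a ha
  have t3 : 3 * (1 / (2 * Real.pi * μ)) ≤ 1 / μ := by
    have hpi3 := Real.pi_gt_three
    rw [show 3 * (1 / (2 * Real.pi * μ)) = (3 / (2 * Real.pi)) * (1 / μ) by
      field_simp]
    have : 3 / (2 * Real.pi) ≤ 1 := by
      rw [div_le_one (by positivity)]; linarith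
    have h0 : 0 ≤ 1 / μ := by positivity
    calc (3 / (2 * Real.pi)) * (1 / μ) ≤ 1 * (1 / μ) := mul_le_mul_of_nonneg_right this h0
      _ = 1 / μ := one_mul _
  calc _ ≤ ‖e (φ b) / ((2 * (Real.pi : ℂ) * Complex.I) * (φ' b : ℂ)) -
        e (φ a) / ((2 * (Real.pi : ℂ) * Complex.I) * (φ' a : ℂ))‖ + _ := norm_add_le _ _
    _ ≤ (‖e (φ b) / ((2 * (Real.pi : ℂ) * Complex.I) * (φ' b : ℂ))‖ +
        ‖e (φ a) / ((2 * (Real.pi : ℂ) * Complex.I) * (φ' a : ℂ))‖) + _ := by
          gcongr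
          exact norm_sub_le _ _
    _ ≤ 1 / μ := by linarith

end Pool.Agent.W582.WS
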